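import Pool.Agent.H366.GF.Fld

/-!
# Goncharov's polylogarithmic complexes of the global fields `F_q(x)`, all weights and degrees

For `F = k(x)`, `k` a finite field, all the complexes `Γ(F,n) ⊗ ℚ`, `n ≥ 2`, are acyclic (in all
degrees).  The same holds for all fields `F` such that every finite subset of `F` is contained in a
subfield isomorphic to some `k(x)`, `k` a finite field, in particular for `F = k(x)`, `k` any
algebraic extension of `F_p`, and for the perfect closures of these fields.
Goncharov's conjecture predicts exactly this, because `K_m(F) ⊗ ℚ = 0` for `m ≥ 2` for these fields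
(Quillen, Harder).

Known before (in the library): the degrees `1`, `n - 1` and `n` for all these `k`, and all degrees
if `k` is infinite (there one can let the number of points of a finite field tend to infinity).
For a fixed finite field `k` one has to use the arithmetic of `k[x]`: the proof counts the solutions
of `A z_1 ... z_s = B z_{s+1} ... z_{2s} + C z_{2s+1} ... z_{3s}` in monic polynomials `z_i` of
large degree in prescribed residue classes, with at most `2 n` of the `z_i` prescribed
(circle method over `k[x]`, with a sieve of the small primes by the multipliers `A`, `B`, `C`).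

The definitions of the complexes are in `Pool/Graph/R_seed8/H39R2/GonP/Defs.lean`.
-/

set_option autoImplicit false

namespace Pool.Agent.Results.MP_9c6ec7_al.GlobalFieldsAllDegrees

open GonP

/-- Every finite subset of `F` is contained in a subfield of `F` which is isomorphic to the field
`k(x)` of rational functions over a finite field `k` (which may depend on the finite subset). -/
def LocallyRational (F : Type) [Field F] : Prop :=
  ∀ s : Finset F, ∃ (k : Type) (_ : Field k) (_ : Finite k) (φ : RatFunc k →+* F),
    ∀ x ∈ s, ∃ y, φ y = x

theorem main (F : Type) [Field F] (h : LocallyRational F) :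
    ∃ D : Differentials F, (∀ D' : Differentials F, D' = D) ∧ D.Acyclic := by
  obtain ⟨⟨D⟩, h1⟩ := Pool.Agent.H366.GF.locRat_acyclic F h
  exact ⟨ofD D, fun D' => unique (ofD D) D', ofD_acyclic D (h1 D)⟩

/-- The differentials of the complexes `Γ(F,n) ⊗ ℚ`, `n ≥ 2`, exist and are unique, and all these
complexes are acyclic, for `F = k(x)`, `k` a finite field, and for all fields `F` which are locally
of this form; these include `k(x)` for all algebraic extensions `k` of `F_p` and their perfect
closures. -/
theorem result :
    (∀ (k : Type) [Field k] [Finite k],
      ∃ D : Differentials (RatFunc k),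
        (∀ D' : Differentials (RatFunc k), D' = D) ∧ D.Acyclic) ∧
    (∀ (F : Type) [Field F], LocallyRational F →
      ∃ D : Differentials F, (∀ D' : Differentials F, D' = D) ∧ D.Acyclic) ∧
    ∀ (p : ℕ) [Fact p.Prime] (k : Type) [Field k] [Algebra (ZMod p) k]
      [Algebra.IsAlgebraic (ZMod p) k], LocallyRational (RatFunc k) ∧
        ∀ [CharP (RatFunc k) p], LocallyRational (PerfectClosure (RatFunc k) p) :=
  ⟨fun k _ _ => main (RatFunc k) (fun _ => ⟨k, inferInstance, inferInstance, RingHom.id _,
      fun x _ => ⟨x, rfl⟩⟩),
    fun F _ h => main F h,
    fun p _ k _ _ _ => ⟨Pool.Agent.H366.GF.locRat_ratFunc p k,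
      Pool.Agent.H366.GF.locRat_perf p (RatFunc k) (Pool.Agent.H366.GF.locRat_ratFunc p k)⟩⟩

end Pool.Agent.Results.MP_9c6ec7_al.GlobalFieldsAllDegrees
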