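import Pool.Agent.H366.NK.CpxFin

/-!
# The cohomology of the polylogarithmic complexes of number fields (with Zagier's groups)

Let `F` be a number field and `k = ℝ` or `k = ℚ` a field of coefficients. Zagier's groups
`B_m(F) ⊗ k = k[F]/R_m` and the complexes `Γ(F,n) ⊗ k`, `n ≥ 2`,
`B_n → B_{n-1} ⊗ F^* → B_{n-2} ⊗ Λ²F^* → ... → B_2 ⊗ Λ^{n-2}F^* → Λ^n F^*` (tensored with `k`)
are defined as in the problem, but with Zagier's relations: `R_m` is the space of the elements of
`ker δ_m ⊆ k[F]` on which the single-valued polylogarithms `𝓛_m(σ ·)` vanish for all embeddings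
`σ : F → ℂ` (`Pool/Agent/H366/NK/ZagDefs.lean`, `CpxStmt.lean`). So the coefficients are in `k`
throughout, also in the relations: for `k = ℝ` these are not the extensions of scalars of the groups
for `k = ℚ`.

1. Coefficients `k = ℝ`, without any hypothesis: for all `n ≥ 2`, `H^i(Γ(F,n) ⊗ ℝ) = 0` for `i ≥ 2`
   and the regulator, given by the `𝓛_n(σ ·)`, is an isomorphism `H^1(Γ(F,n) ⊗ ℝ) = ℝ^{d_n}`.
2. Coefficients `k = ℚ`, using the theorems of Borel and of Beilinson-Deligne and de Jeu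
   (`BorelBD`; known): for all `n ≥ 2`, `H^i(Γ(F,n) ⊗ ℚ) = 0` for `i ≥ 2` and the regulator is an
   isomorphism of `H^1(Γ(F,n) ⊗ ℚ)` with the image `Λ n` of `K_{2n-1}(F) ⊗ ℚ` in `ℝ^{d_n}`.

So for number fields and Zagier's groups the cohomology of the polylogarithmic complexes is
`gr^γ_n K_{2n-i}(F) ⊗ ℚ` in all degrees.

Proof. Functionals on the terms of the complexes are given by multilinear forms:
`g({x} ⊗ y) = P(x, ..., x; 1 - x; y) + ∑_{i,w} 𝓛_i(x_w) ψ_{i,w}(x, ..., x; y)`. If `g` vanishes on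
boundaries, the main theorem `Pool.Agent.H366.NK.TSIN` (circle method over the ring of integers of
`F`) shows `P(s, ..., s; t; s, y) = 0` and `ψ_{i,w}(s, ..., s; s, y) = 0`; the exactness of Koszul
complexes gives the functional on the next term.
-/

set_option autoImplicit false

namespace Pool.Agent.Results.MP_9c6ec7_al.NumberFieldsZagierGroups

open NumberField Pool.Agent.H366.NK

/-- The cohomology of the polylogarithmic complexes (with Zagier's groups) of all number fields:
for real coefficients, without hypothesis, `H^1(Γ(F,n) ⊗ ℝ) = ℝ^{d_n}` and `H^i(Γ(F,n) ⊗ ℝ) = 0` for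
`i ≥ 2`; for rational coefficients `H^1(Γ(F,n) ⊗ ℚ) = Λ n = K_{2n-1}(F) ⊗ ℚ` and
`H^i(Γ(F,n) ⊗ ℚ) = 0` for `i ≥ 2`. -/
theorem result (F : Type) [Field F] [NumberField F] :
    (Cohomology ℝ F fun _ => ⊤) ∧
    ∀ Λ : (n : ℕ) → Submodule ℚ (Pl F n → ℝ), BorelBD F (RZ ℚ F) Λ → Cohomology ℚ F Λ :=
  ⟨(cohomology ℝ F (LIreg_real F)).congr fun n hn =>
      reg_onto_real F (RZ ℝ F) n hn fun m hm _ => (RZ_eq ℝ F m hm).ge,
    fun Λ hΛ => (cohomology ℚ F (LIreg_rat F Λ hΛ)).congr fun n hn =>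
      reg_onto F (RZ ℚ F) Λ hΛ n hn fun m hm _ => (RZ_eq ℚ F m hm).ge⟩

end Pool.Agent.Results.MP_9c6ec7_al.NumberFieldsZagierGroups
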